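import Pool.Agent.Helper39.KZ.Stmts

/-!
# PAR: Parseval on the circle `|t| = r` (one-sided, with an error `ε`)
-/

set_option autoImplicit false

open Metric Set Polynomial Complex Filter Topology

namespace Pool.Agent.Helper5.KZ

open _root_.KZ

/-- the `k`-th coefficient -/
noncomputable def cf (r : ℝ) (e : ℂ → ℂ) (k : ℕ) : ℂ := av r (fun s => s⁻¹ ^ k * e s)

lemma ne_of_sphere {r : ℝ} (hr : 0 < r) {t : ℂ} (ht : t ∈ sphere (0 : ℂ) |r|) : t ≠ 0 := by
  rintro rfl
  rw [mem_sphere, dist_self, abs_of_pos hr] at ht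
  exact hr.ne ht

lemma av_congr {E : Type*} [NormedAddCommGroup E] [NormedSpace ℝ E] {r : ℝ} {f g : ℂ → E}
    (h : ∀ t ∈ sphere (0 : ℂ) |r|, f t = g t) : av r f = av r g :=
  Real.circleAverage_congr_sphere h

lemma ci_of_cont {E : Type*} [NormedAddCommGroup E] {r : ℝ} (hr : 0 < r) {f : ℂ → E}
    (h : ContinuousOn f (sphere (0 : ℂ) r)) : CircleIntegrable f 0 r :=
  h.circleIntegrable hr.le

/-- orthogonality of the powers -/
lemma orth {r : ℝ} (hr : 0 < r) (k j : ℕ) :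
    av r (fun t : ℂ => t⁻¹ ^ k * t ^ j) = if j = k then 1 else 0 := by
  have h1 : av r (fun t : ℂ => t⁻¹ ^ k * t ^ j) =
      (2 * Real.pi * I : ℂ)⁻¹ * ∮ z in C(0, r), (z - 0) ^ ((j : ℤ) - k - 1) := by
    rw [av, Real.circleAverage_eq_circleIntegral hr.ne', smul_eq_mul]
    congr 1
    apply circleIntegral.integral_congr hr.le
    intro z hz
    have hz0 : z ≠ 0 := ne_of_sphere hr (by rwa [abs_of_pos hr])
    simp only [sub_zero, smul_eq_mul]
    rw [zpow_sub₀ hz0, zpow_sub₀ hz0, zpow_natCast, zpow_natCast, zpow_one, inv_pow]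
    field_simp
  rw [h1]
  split_ifs with h
  · subst h
    have h2 : (∮ z in C((0:ℂ), r), (z - 0) ^ ((j : ℤ) - j - 1)) = ∮ z in C((0:ℂ), r), (z - 0)⁻¹ := by
      congr 1
      funext z
      rw [sub_self, zero_sub, zpow_neg_one]
    rw [h2, circleIntegral.integral_sub_center_inv _ hr.ne', inv_mul_cancel₀]
    simp [Real.pi_ne_zero]
  · rw [circleIntegral.integral_sub_zpow_of_ne, mul_zero]
    intro h2
    apply h
    omega

/-- remainder after `N` terms -/
noncomputable def rem (r : ℝ) (e : ℂ → ℂ) (N : ℕ) (t : ℂ) : ℂ :=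
  e t - ∑ k ∈ Finset.range N, cf r e k * t ^ k

lemma rem_cont {r : ℝ} {e : ℂ → ℂ} (he : ContinuousOn e (sphere (0 : ℂ) r)) (N : ℕ) :
    ContinuousOn (rem r e N) (sphere (0 : ℂ) r) := by
  unfold rem
  fun_prop

lemma invpow_cont {r : ℝ} (hr : 0 < r) (k : ℕ) :
    ContinuousOn (fun t : ℂ => t⁻¹ ^ k) (sphere (0 : ℂ) r) := by
  apply ContinuousOn.pow
  apply continuousOn_id.inv₀
  intro t ht
  exact ne_of_sphere hr (by rwa [abs_of_pos hr])

lemma cs (a : ℂ) {f : ℂ → ℂ} {s : Set ℂ} (h : ContinuousOn f s) :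
    ContinuousOn (fun t => a • f t) s := h.const_smul a

lemma pp_cont {r : ℝ} (hr : 0 < r) (N k : ℕ) :
    ContinuousOn (fun t : ℂ => t⁻¹ ^ N * t ^ k) (sphere (0 : ℂ) r) :=
  (invpow_cont hr N).mul (continuousOn_id.pow k)

lemma cf_rem {r : ℝ} (hr : 0 < r) {e : ℂ → ℂ} (he : ContinuousOn e (sphere (0 : ℂ) r)) (N : ℕ) :
    av r (fun t => t⁻¹ ^ N * rem r e N t) = cf r e N := by
  have h1 : (fun t => t⁻¹ ^ N * rem r e N t) =
      fun t => t⁻¹ ^ N * e t - ∑ k ∈ Finset.range N, cf r e k • (t⁻¹ ^ N * t ^ k) := by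
    funext t
    simp only [rem, mul_sub, Finset.mul_sum, smul_eq_mul]
    congr 1
    apply Finset.sum_congr rfl
    intro k _
    ring
  rw [h1, av, Real.circleAverage_fun_sub, Real.circleAverage_fun_sum]
  · have h2 : ∑ k ∈ Finset.range N, Real.circleAverage (fun t : ℂ => cf r e k • (t⁻¹ ^ N * t ^ k)) 0 r
        = 0 := by
      apply Finset.sum_eq_zero
      intro k hk
      rw [Real.circleAverage_fun_smul]
      have := orth hr N k
      rw [av] at this
      rw [this, if_neg (by have := Finset.mem_range.1 hk; omega), smul_zero]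
    rw [h2, sub_zero]
    rfl
  · intro k hk
    exact ci_of_cont hr (cs _ (pp_cont hr N k))
  · exact ci_of_cont hr ((invpow_cont hr N).mul he)
  · apply ci_of_cont hr
    apply continuousOn_finsetSum
    intro k hk
    exact cs _ (pp_cont hr N k)

lemma conj_pow {r : ℝ} (hr : 0 < r) {t : ℂ} (ht : t ∈ sphere (0 : ℂ) |r|) (N : ℕ) :
    (starRingEnd ℂ) t ^ N = (r : ℂ) ^ (2 * N) * t⁻¹ ^ N := by
  have h0 := ne_of_sphere hr ht
  have h1 : (starRingEnd ℂ) t * t = (r : ℂ) ^ 2 := by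
    rw [mul_comm, Complex.mul_conj, Complex.normSq_eq_norm_sq]
    rw [mem_sphere, dist_zero_right, abs_of_pos hr] at ht
    rw [ht]
    push_cast
    rfl
  have h2 : (starRingEnd ℂ) t = (r : ℂ) ^ 2 * t⁻¹ := by
    field_simp
    exact h1
  rw [h2, mul_pow, pow_mul]

/-- exact Parseval with remainder -/
lemma parseval {r : ℝ} (hr : 0 < r) {e : ℂ → ℂ} (he : ContinuousOn e (sphere (0 : ℂ) r)) (N : ℕ) :
    av r (fun t => ‖e t‖ ^ 2) =
      ∑ k ∈ Finset.range N, ‖cf r e k‖ ^ 2 * r ^ (2 * k) + av r (fun t => ‖rem r e N t‖ ^ 2) := by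
  induction N with
  | zero => simp [rem]
  | succ N ih =>
    rw [ih, Finset.sum_range_succ, add_assoc]
    congr 1
    set c := cf r e N with hc
    have hrc := rem_cont he N
    have hm : ContinuousOn (fun t => t⁻¹ ^ N * rem r e N t) (sphere (0 : ℂ) r) :=
      (invpow_cont hr N).mul hrc
    have h1 : av r (fun t => ‖rem r e (N + 1) t‖ ^ 2) =
        av r (fun t => ‖rem r e N t‖ ^ 2 +
          (reCLM ((-2 * (starRingEnd ℂ) c * (r : ℂ) ^ (2 * N)) • (t⁻¹ ^ N * rem r e N t)) +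
            ‖c‖ ^ 2 * r ^ (2 * N))) := by
      apply av_congr
      intro t ht
      have h2 : rem r e (N + 1) t = rem r e N t - c * t ^ N := by
        rw [rem, rem, Finset.sum_range_succ]
        ring
      have h3 : ‖rem r e N t - c * t ^ N‖ ^ 2 = ‖rem r e N t‖ ^ 2
          - 2 * ((starRingEnd ℂ) c * (starRingEnd ℂ) t ^ N * rem r e N t).re + ‖c * t ^ N‖ ^ 2 := by
        rw [← Complex.normSq_eq_norm_sq, ← Complex.normSq_eq_norm_sq, ← Complex.normSq_eq_norm_sq,
          Complex.normSq_sub]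
        have : (rem r e N t * (starRingEnd ℂ) (c * t ^ N)).re =
            ((starRingEnd ℂ) c * (starRingEnd ℂ) t ^ N * rem r e N t).re := by
          congr 1
          rw [map_mul, map_pow]
          ring
        rw [this]
        ring
      have ht' : ‖t‖ = r := by
        rw [mem_sphere, dist_zero_right, abs_of_pos hr] at ht
        exact ht
      rw [h2, h3, conj_pow hr ht, norm_mul, norm_pow, ht']
      simp only [reCLM_apply, smul_eq_mul]
      have : (-2 * (starRingEnd ℂ) c * (r : ℂ) ^ (2 * N) * (t⁻¹ ^ N * rem r e N t)).re =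
          - 2 * ((starRingEnd ℂ) c * ((r : ℂ) ^ (2 * N) * t⁻¹ ^ N) * rem r e N t).re := by
        have h4 : (-2 * (starRingEnd ℂ) c * (r : ℂ) ^ (2 * N) * (t⁻¹ ^ N * rem r e N t)) =
            (((-2 : ℝ) : ℂ)) * ((starRingEnd ℂ) c * ((r : ℂ) ^ (2 * N) * t⁻¹ ^ N) * rem r e N t) := by
          push_cast
          ring
        rw [h4, Complex.re_ofReal_mul]
      rw [this]
      ring
    have hA : CircleIntegrable (fun t => ‖rem r e N t‖ ^ 2) 0 r :=
      ci_of_cont hr (hrc.norm.pow 2)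
    have hB0 : CircleIntegrable (fun t => (-2 * (starRingEnd ℂ) c * (r : ℂ) ^ (2 * N)) •
        (t⁻¹ ^ N * rem r e N t)) 0 r :=
      ci_of_cont hr (cs _ hm)
    have hB : CircleIntegrable (fun t => reCLM ((-2 * (starRingEnd ℂ) c * (r : ℂ) ^ (2 * N)) •
        (t⁻¹ ^ N * rem r e N t))) 0 r :=
      ci_of_cont hr (reCLM.continuous.comp_continuousOn (cs _ hm))
    have hC : CircleIntegrable (fun _ : ℂ => ‖c‖ ^ 2 * r ^ (2 * N)) 0 r :=
      ci_of_cont hr continuousOn_const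
    have hBC : CircleIntegrable (fun t => reCLM ((-2 * (starRingEnd ℂ) c * (r : ℂ) ^ (2 * N)) •
        (t⁻¹ ^ N * rem r e N t)) + ‖c‖ ^ 2 * r ^ (2 * N)) 0 r := hB.add hC
    rw [h1]
    simp only [av]
    rw [Real.circleAverage_fun_add hA hBC, Real.circleAverage_fun_add hB hC,
      Real.circleAverage_const]
    have h5 : Real.circleAverage (fun t => reCLM ((-2 * (starRingEnd ℂ) c * (r : ℂ) ^ (2 * N)) •
        (t⁻¹ ^ N * rem r e N t))) 0 r = -2 * (‖c‖ ^ 2 * r ^ (2 * N)) := by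
      have h6 := reCLM.circleAverage_comp_comm hB0
      have h7 : (reCLM ∘ fun t => (-2 * (starRingEnd ℂ) c * (r : ℂ) ^ (2 * N)) •
        (t⁻¹ ^ N * rem r e N t)) = fun t => reCLM ((-2 * (starRingEnd ℂ) c * (r : ℂ) ^ (2 * N)) •
        (t⁻¹ ^ N * rem r e N t)) := rfl
      rw [h7] at h6
      rw [h6, Real.circleAverage_fun_smul]
      have h8 := cf_rem hr he N
      rw [av] at h8
      rw [h8, ← hc, smul_eq_mul, reCLM_apply]
      have h9 : -2 * (starRingEnd ℂ) c * (r : ℂ) ^ (2 * N) * c =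
          ((-2 * (‖c‖ ^ 2 * r ^ (2 * N)) : ℝ) : ℂ) := by
        have : (starRingEnd ℂ) c * c = ((‖c‖ ^ 2 : ℝ) : ℂ) := by
          rw [mul_comm, Complex.mul_conj, Complex.normSq_eq_norm_sq]
        push_cast at this ⊢
        linear_combination (-2 * (r : ℂ) ^ (2 * N)) * this
      rw [h9, Complex.ofReal_re]
    rw [h5]
    ring

/-- uniform convergence of the Taylor series on the circle -/
lemma unif {r : ℝ} (hr : 0 < r) (hr1 : r < 1) {e : ℂ → ℂ} (he : DifferentiableOn ℂ e (ball 0 1))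
    {δ : ℝ} (hδ : 0 < δ) : ∃ N₀ : ℕ, ∀ N ≥ N₀, ∀ t ∈ sphere (0 : ℂ) r, ‖rem r e N t‖ < δ := by
  obtain ⟨R, hrR, hR1⟩ := exists_between hr1
  obtain ⟨r', hrr', hr'R⟩ := exists_between hrR
  have hR0 : 0 < R := hr.trans hrR
  have hr'0 : 0 < r' := hr.trans hrr'
  obtain ⟨R', rfl⟩ : ∃ R' : NNReal, (R' : ℝ) = R := ⟨⟨R, hR0.le⟩, rfl⟩
  obtain ⟨r₁, rfl⟩ : ∃ r₁ : NNReal, (r₁ : ℝ) = r := ⟨⟨r, hr.le⟩, rfl⟩
  obtain ⟨r₂, rfl⟩ : ∃ r₂ : NNReal, (r₂ : ℝ) = r' := ⟨⟨r', hr'0.le⟩, rfl⟩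
  have hp : HasFPowerSeriesOnBall e (cauchyPowerSeries e 0 R') 0 R' :=
    DifferentiableOn.hasFPowerSeriesOnBall (he.mono (closedBall_subset_ball hR1))
      (by exact_mod_cast hR0)
  have hq : HasFPowerSeriesOnBall e (cauchyPowerSeries e 0 r₁) 0 r₁ :=
    DifferentiableOn.hasFPowerSeriesOnBall (he.mono (closedBall_subset_ball hr1))
      (by exact_mod_cast hr)
  have hpq : cauchyPowerSeries e 0 R' = cauchyPowerSeries e 0 r₁ :=
    hp.hasFPowerSeriesAt.eq_formalMultilinearSeries hq.hasFPowerSeriesAt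
  have hu := hp.tendstoUniformlyOn (r' := r₂) (by exact_mod_cast hr'R)
  rw [Metric.tendstoUniformlyOn_iff] at hu
  obtain ⟨N₀, hN₀⟩ := eventually_atTop.1 (hu δ hδ)
  refine ⟨N₀, fun N hN t ht => ?_⟩
  have hmem : t ∈ ball (0 : ℂ) r₂ := by
    rw [mem_sphere] at ht
    rw [mem_ball, ht]
    exact hrr'
  have h1 := hN₀ N hN t hmem
  rw [zero_add, dist_eq_norm] at h1
  have h2 : (cauchyPowerSeries e 0 R').partialSum N t =
      ∑ k ∈ Finset.range N, cf r₁ e k * t ^ k := by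
    rw [FormalMultilinearSeries.partialSum]
    apply Finset.sum_congr rfl
    intro k _
    have h3 : (∮ z in C((0 : ℂ), r₁), (t / (z - 0)) ^ k • (z - 0)⁻¹ • e z) =
        t ^ k * ∮ z in C((0 : ℂ), r₁), (z - 0)⁻¹ • (z⁻¹ ^ k * e z) := by
      rw [← circleIntegral.integral_const_mul]
      congr 1
      funext z
      simp only [smul_eq_mul, sub_zero, div_eq_mul_inv, mul_pow]
      ring
    rw [hpq, cauchyPowerSeries_apply, cf, av, Real.circleAverage_eq_circleIntegral hr.ne', h3,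
      smul_eq_mul, smul_eq_mul]
    ring
  rw [h2] at h1
  exact h1

theorem st_PAR : ST_PAR := by
  intro r hr hr1 e he ε hε
  have hec : ContinuousOn e (sphere (0 : ℂ) r) :=
    he.continuousOn.mono ((sphere_subset_closedBall).trans (closedBall_subset_ball hr1))
  have hδ : 0 < Real.sqrt (ε / 2) := Real.sqrt_pos.2 (by positivity)
  obtain ⟨N₀, hN₀⟩ := unif hr hr1 he hδ
  refine ⟨N₀, fun N hN => ?_⟩
  have hdc : DiffContOnCl ℂ e (ball 0 |r|) := by
    rw [abs_of_pos hr]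
    exact (he.mono (closedBall_subset_ball hr1)).diffContOnCl_ball (Subset.refl _)
  -- mean values
  have hm1 : av r e = e 0 := hdc.circleAverage
  have hm2 : av r (fun t => e t ^ 2) = e 0 ^ 2 := by
    have : DiffContOnCl ℂ (fun t => e t ^ 2) (ball 0 |r|) := by
      rw [abs_of_pos hr]
      exact ((he.mono (closedBall_subset_ball hr1)).pow 2).diffContOnCl_ball (Subset.refl _)
    exact this.circleAverage
  have hA : CircleIntegrable (fun t => e t ^ 2) 0 r := ci_of_cont hr (hec.pow 2)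
  have hA' : CircleIntegrable (fun t => 2 * reCLM (e t ^ 2)) 0 r :=
    ci_of_cont hr (continuousOn_const.mul (reCLM.continuous.comp_continuousOn (hec.pow 2)))
  have hB : CircleIntegrable (fun t => 2 * ‖e t‖ ^ 2) 0 r :=
    ci_of_cont hr (continuousOn_const.mul (hec.norm.pow 2))
  have h1 : av r (fun t => (2 * (e t).re) ^ 2) =
      2 * (e 0 ^ 2).re + 2 * av r (fun t => ‖e t‖ ^ 2) := by
    have h2 : (fun t => (2 * (e t).re) ^ 2) = fun t => 2 * reCLM (e t ^ 2) + 2 * ‖e t‖ ^ 2 := by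
      funext t
      rw [← Complex.normSq_eq_norm_sq, Complex.normSq_apply, reCLM_apply, pow_two (e t),
        Complex.mul_re]
      ring
    rw [h2, av, Real.circleAverage_fun_add hA' hB]
    congr 1
    · have h3 := Real.circleAverage_fun_smul (a := (2 : ℝ)) (f := fun t => reCLM (e t ^ 2)) (c := 0) (R := r)
      simp only [smul_eq_mul] at h3
      rw [h3]
      congr 1
      have h4 := reCLM.circleAverage_comp_comm hA
      have h5 : (reCLM ∘ fun t => e t ^ 2) = fun t => reCLM (e t ^ 2) := rfl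
      rw [h5] at h4
      rw [h4, reCLM_apply]
      congr 1
    · have h3 := Real.circleAverage_fun_smul (a := (2 : ℝ)) (f := fun t => ‖e t‖ ^ 2) (c := 0) (R := r)
      simp only [smul_eq_mul] at h3
      exact h3
  have h6 := parseval hr hec (N + 1)
  have h7 : ∑ k ∈ Finset.range (N + 1), ‖cf r e k‖ ^ 2 * r ^ (2 * k) =
      ‖e 0‖ ^ 2 + ∑ k ∈ Finset.Icc 1 N, ‖av r (fun s => s⁻¹ ^ k * e s)‖ ^ 2 * r ^ (2 * k) := by
    rw [Finset.range_eq_Ico, Finset.sum_eq_sum_Ico_succ_bot (by omega : 0 < N + 1)]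
    congr 1
    · have : cf r e 0 = e 0 := by
        rw [cf]
        simp only [pow_zero, one_mul]
        exact hm1
      rw [this]
      simp
  have h8 : av r (fun t => ‖rem r e (N + 1) t‖ ^ 2) ≤ ε / 2 := by
    apply Real.circleAverage_mono_on_of_le_circle
    · exact ci_of_cont hr ((rem_cont hec (N + 1)).norm.pow 2)
    · intro t ht
      rw [abs_of_pos hr] at ht
      have h9 := hN₀ (N + 1) (by omega) t ht
      have h10 : ‖rem r e (N + 1) t‖ ^ 2 ≤ Real.sqrt (ε / 2) ^ 2 :=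
        pow_le_pow_left₀ (norm_nonneg _) h9.le 2
      rwa [Real.sq_sqrt (by positivity)] at h10
  rw [h1, h6, h7]
  linarith

end Pool.Agent.Helper5.KZ
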